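import Pool.Agent.Lib.MP_688fd0_co.SQ3.Iface

/-!
C2, LEVEL 2 (sets of at most three elements, valency at most three): the targets `Near3S`, `Far3S` and the assembly.

`a, t, b` are involutions with `eps = -1` which generate `G`; `Γ = ker eps`. Cases: two letters of equal `P`-height
(`SQ6.TwoHS`), `Γ / N` abelian (`classX`), `P`-heights with a short relation (`Near3S`), no short relation (`Far3S`).
The primes of `C` may be assumed small (otherwise `MainCS` with this prime in the place of `P`).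
-/

set_option autoImplicit false

namespace Pool.Agent.Lib.MP_688fd0_co.SQD

open Pool.Agent.Lib.MP_688fd0_co.OSF Pool.Agent.Lib.MP_688fd0_co.SQ3
open Subgroup

universe u

/-- Short relation of the `P`-heights of the involutions `a, t, b`: `m (h a - h t) + n (h b - h t) = 0`. -/
def Rel {G : Type u} [Group G] (P : ℕ) (a t b : G) (τ : ℕ) : Prop :=
  ∃ m n : ℤ, (m ≠ 0 ∨ n ≠ 0) ∧ |m| ≤ τ ∧ |n| ≤ τ ∧ ¬ P ∣ orderOf ((a * t) ^ m * (b * t) ^ n)

/-- Three involutions `a, t, b` which generate `G`, with `eps = -1` and pairwise different `P`-heights; `ker eps` is not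
commutative modulo `N`; the primes of `C` are small. -/
structure Tri {G : Type u} [Group G] (N C : Subgroup G) (eps : G →* ℤˣ) (k P : ℕ) (a t b : G) (c₁ : ℕ) : Prop where
  gn : GN N C eps k P
  aa : a * a = 1
  tt : t * t = 1
  bb : b * b = 1
  ea : eps a = -1
  et : eps t = -1
  eb : eps b = -1
  gen : closure {a, t, b} = ⊤
  hat : P ∣ orderOf (a * t)
  htb : P ∣ orderOf (t * b)
  hab : P ∣ orderOf (a * b)
  nab : ¬ ∀ x y : G, eps x = 1 → eps y = 1 → x * y * x⁻¹ * y⁻¹ ∈ N
  small : ∀ p ∈ (Nat.card C).primeFactors, p < 2 ^ ((k + (Nat.card G).primeFactorsList.length) ^ c₁)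

/-- Margin: every prime factor of the order of `N` is larger than `(k + Ω + 2) ^ c`. -/
def Marg {G : Type u} [Group G] (N : Subgroup G) (k c : ℕ) : Prop :=
  ∀ p ∈ (Nat.card N).primeFactors, (k + (Nat.card G).primeFactorsList.length + 2) ^ c < p

/-- NEAR-3: there is a relation of size at most `(k + Ω) ^ e` (`e` is given). -/
def Near3S : Prop :=
  ∀ e c₁ : ℕ, ∃ c₀ : ℕ, ∀ (G : Type) [Group G] [Finite G] (N C : Subgroup G) (eps : G →* ℤˣ) (k P : ℕ) (a t b : G),
    Tri N C eps k P a t b c₁ → Marg N k c₀ → Rel P a t b ((k + (Nat.card G).primeFactorsList.length) ^ e) →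
    2 ^ ((k + (Nat.card G).primeFactorsList.length) ^ c₀) ≤ P → Lst ({a, t, b} : Set G)

/-- FAR-3: there is no relation of size at most `(k + Ω) ^ e` (`e` is at the disposal of the proof). -/
def Far3S : Prop :=
  ∃ e : ℕ, ∀ c₁ : ℕ, ∃ c₀ : ℕ, ∀ (G : Type) [Group G] [Finite G] (N C : Subgroup G) (eps : G →* ℤˣ) (k P : ℕ)
    (a t b : G),
    Tri N C eps k P a t b c₁ → Marg N k c₀ → ¬ Rel P a t b ((k + (Nat.card G).primeFactorsList.length) ^ e) →
    2 ^ ((k + (Nat.card G).primeFactorsList.length) ^ c₀) ≤ P → Lst ({a, t, b} : Set G)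

/-- A symmetric permutation of the letters. -/
theorem Tri.card_pos {G : Type u} [Group G] [Finite G] {N C : Subgroup G} {eps : G →* ℤˣ} {k P : ℕ} {a t b : G}
    {c₁ : ℕ} (h : Tri N C eps k P a t b c₁) : 0 < k := by
  rw [← h.gn.idx]
  exact Nat.pos_of_ne_zero N.index_ne_zero_of_finite

theorem Marg.mono {G : Type u} [Group G] {N : Subgroup G} {k c c' : ℕ} (h : c ≤ c') (hm : Marg N k c') : Marg N k c :=
  fun p hp => (Nat.pow_le_pow_right (by omega) h).trans_lt (hm p hp)

/-- The three cases for involutions with pairwise different heights. -/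
theorem tri_of (hN : Near3S) (hF : Far3S) (c₁ : ℕ) : ∃ c₀ : ℕ, ∀ (G : Type) [Group G] [Finite G] (N C : Subgroup G)
    (eps : G →* ℤˣ) (k P : ℕ) (a t b : G), Tri N C eps k P a t b c₁ → Marg N k c₀ →
    2 ^ ((k + (Nat.card G).primeFactorsList.length) ^ c₀) ≤ P → Lst ({a, t, b} : Set G) := by
  obtain ⟨e, hF⟩ := hF
  obtain ⟨c₂, hF⟩ := hF c₁
  obtain ⟨c₃, hN⟩ := hN e c₁
  refine ⟨max c₂ c₃, ?_⟩
  intro G _ _ N C eps k P a t b h hM hP
  have hk := h.card_pos
  have hm : ∀ c ≤ max c₂ c₃, 2 ^ ((k + (Nat.card G).primeFactorsList.length) ^ c) ≤ P := fun c hc =>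
    (Nat.pow_le_pow_right (by norm_num) (Nat.pow_le_pow_right (by omega) hc)).trans hP
  by_cases hR : Rel P a t b ((k + (Nat.card G).primeFactorsList.length) ^ e)
  · exact hN G N C eps k P a t b h (hM.mono (le_max_right _ _)) hR (hm _ (le_max_right _ _))
  · exact hF G N C eps k P a t b h (hM.mono (le_max_left _ _)) hR (hm _ (le_max_left _ _))

end Pool.Agent.Lib.MP_688fd0_co.SQD
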