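import Pool.Agent.Lib.MP_688fd0_co.SQ5.H24.Hgt
import Pool.Agent.Lib.MP_688fd0_co.SQ4.H23.Two

/-!
C2, LEVELS 3 and 4: it is enough to consider sets of at most `2 Ω + 10` letters.
-/

set_option autoImplicit false

namespace Pool.Agent.Lib.MP_688fd0_co.SQD

open Pool.Agent.Lib.MP_688fd0_co.OSF Pool.Agent.Lib.MP_688fd0_co.SQ3
open Subgroup

universe u

/-- Every generating set has a small generating subset. -/
theorem small_gen {G : Type u} [Group G] [Finite G] {A : Set G} (hA : closure A = ⊤) :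
    ∃ T : Finset G, (↑T : Set G) ⊆ A ∧ T.card ≤ (Nat.card G).primeFactorsList.length ∧ closure (↑T : Set G) = ⊤ := by
  classical
  have key : ∀ (n : ℕ) (H : Subgroup G), H.index.primeFactorsList.length = n →
      ∃ T : Finset G, (↑T : Set G) ⊆ A ∧ T.card ≤ n ∧ H ⊔ closure (↑T : Set G) = ⊤ := by
    intro n
    induction n using Nat.strong_induction_on with
    | _ n ih =>
      intro H hH
      by_cases hAH : A ⊆ H
      · refine ⟨∅, by simp, by simp, ?_⟩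
        have : H = ⊤ := top_le_iff.1 (hA ▸ (closure_le H).2 hAH)
        rw [this, top_sup_eq]
      · obtain ⟨a, haA, haH⟩ := Set.not_subset.1 hAH
        have hle : H ≤ H ⊔ closure {a} := le_sup_left
        have h1 := relIndex_mul_index hle
        have h2 : H.relIndex (H ⊔ closure {a}) ≠ 1 := by
          intro h2
          rw [relIndex_eq_one] at h2
          exact haH (h2 (le_sup_right (a := H) (subset_closure (Set.mem_singleton a))))
        have h3 : H.relIndex (H ⊔ closure {a}) ≠ 0 := by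
          intro h3
          rw [h3, zero_mul] at h1
          exact H.index_ne_zero_of_finite h1.symm
        have h4 : (H ⊔ closure {a}).index ≠ 0 := (H ⊔ closure {a}).index_ne_zero_of_finite
        have h5 : H.index.primeFactorsList.length = (H.relIndex (H ⊔ closure {a})).primeFactorsList.length +
            (H ⊔ closure {a}).index.primeFactorsList.length := by
          rw [← h1, (Nat.perm_primeFactorsList_mul h3 h4).length_eq, List.length_append]
        have h6 : 0 < (H.relIndex (H ⊔ closure {a})).primeFactorsList.length := by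
          rw [List.length_pos_iff]
          intro h6
          rcases (Nat.primeFactorsList_eq_nil _).1 h6 with h7 | h7
          · exact h3 h7
          · exact h2 h7
        obtain ⟨T, hT1, hT2, hT3⟩ := ih _ (by omega) (H ⊔ closure {a}) rfl
        refine ⟨insert a T, ?_, ?_, ?_⟩
        · rw [Finset.coe_insert]
          exact Set.insert_subset haA hT1
        · have := Finset.card_insert_le a T
          omega
        · rw [Finset.coe_insert, Set.insert_eq, Subgroup.closure_union, ← sup_assoc, hT3]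
  obtain ⟨T, hT1, hT2, hT3⟩ := key _ ⊥ rfl
  refine ⟨T, hT1, ?_, by rw [← hT3, bot_sup_eq]⟩
  rwa [index_bot] at hT2

/-- Three letters with pairwise different `P`-heights. -/
theorem three_of {G : Type u} [Group G] {P : ℕ} {A : Set G} (hA : A.Nonempty)
    (h : ¬ ∃ a ∈ A, ∃ b ∈ A, ∀ s ∈ A, ¬ P ∣ orderOf (s * a⁻¹) ∨ ¬ P ∣ orderOf (s * b⁻¹)) :
    ∃ a ∈ A, ∃ b ∈ A, ∃ c ∈ A, P ∣ orderOf (b * a⁻¹) ∧ P ∣ orderOf (c * a⁻¹) ∧ P ∣ orderOf (c * b⁻¹) := by
  obtain ⟨a, ha⟩ := hA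
  push Not at h
  obtain ⟨b, hb, h1, -⟩ := h a ha a ha
  obtain ⟨c, hc, h2, h3⟩ := h a ha b hb
  exact ⟨a, ha, b, hb, c, hc, h1, h2, h3⟩

theorem three_sub {G : Type u} [Group G] [Finite G] {N C : Subgroup G} {eps : G →* ℤˣ} {k P : ℕ} (hG : GN N C eps k P)
    {A : Set G} (neg : ∀ x ∈ A, eps x = -1) {a b c : G} (ha : a ∈ A) (hb : b ∈ A) (hc : c ∈ A)
    (h1 : P ∣ orderOf (b * a⁻¹)) (h2 : P ∣ orderOf (c * a⁻¹)) (h3 : P ∣ orderOf (c * b⁻¹)) :
    ¬ ∃ x ∈ A, ∃ y ∈ A, ∀ s ∈ A, ¬ P ∣ orderOf (s * x⁻¹) ∨ ¬ P ∣ orderOf (s * y⁻¹) := by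
  have tr : ∀ {s s' s'' : G}, s ∈ A → s' ∈ A → s'' ∈ A → ¬ P ∣ orderOf (s * s'⁻¹) → ¬ P ∣ orderOf (s'' * s'⁻¹) →
      ¬ P ∣ orderOf (s * s''⁻¹) := fun hs hs' hs'' h h' =>
    H24.same_trans hG hG.prime hG.dvd hG.ndvd (by rw [neg _ hs, neg _ hs']) (by rw [neg _ hs', neg _ hs'']) h (H24.same_symm h')
  rintro ⟨x, hx, y, hy, h⟩
  rcases h a ha with h4 | h4 <;> rcases h b hb with h5 | h5 <;> rcases h c hc with h6 | h6
  · exact tr hb hx ha h5 h4 h1
  · exact tr hb hx ha h5 h4 h1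
  · exact tr hc hx ha h6 h4 h2
  · exact tr hc hy hb h6 h5 h3
  · exact tr hc hx hb h6 h5 h3
  · exact tr hc hy ha h6 h4 h2
  · exact tr hb hy ha h5 h4 h1
  · exact tr hb hy ha h5 h4 h1

/-- `Refl` for a subset. -/
theorem Refl.sub {G : Type u} [Group G] [Finite G] {N C : Subgroup G} {eps : G →* ℤˣ} {k P : ℕ} {A B : Set G} {c₁ : ℕ}
    (h : Refl N C eps k P A c₁) (hB : B ⊆ A) (sym : ∀ x ∈ B, x⁻¹ ∈ B) (gen : closure B = ⊤) {a b c : G} (ha : a ∈ B)
    (hb : b ∈ B) (hc : c ∈ B) (h1 : P ∣ orderOf (b * a⁻¹)) (h2 : P ∣ orderOf (c * a⁻¹)) (h3 : P ∣ orderOf (c * b⁻¹)) :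
    Refl N C eps k P B c₁ :=
  ⟨h.gn, sym, gen, fun x hx => h.neg x (hB hx), three_sub h.gn (fun x hx => h.neg x (hB hx)) ha hb hc h1 h2 h3, h.small⟩

/-- LEVEL 4 for small sets. -/
def B1FullB : Prop :=
  ∀ c₁ : ℕ, ∃ c₀ : ℕ, ∀ (G : Type) [Group G] [Finite G] (N C : Subgroup G) (eps : G →* ℤˣ) (k P : ℕ) (A : Set G),
    Refl N C eps k P A c₁ → Marg N k c₀ → (∃ s ∈ A, ∃ s' ∈ A, s ≠ s' ∧ Sim N C s s') →
    A.ncard ≤ 2 * (Nat.card G).primeFactorsList.length + 10 →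
    2 ^ ((k + (Nat.card G).primeFactorsList.length) ^ c₀) ≤ P → Lst A

/-- LEVEL 3, near, for small sets. -/
def InvNearB : Prop :=
  ∀ e c₁ : ℕ, ∃ c₀ : ℕ, ∀ (G : Type) [Group G] [Finite G] (N C : Subgroup G) (eps : G →* ℤˣ) (k P : ℕ) (A : Set G)
    (a t b : G),
    Inv N C eps k P A c₁ a t b → Marg N k c₀ →
    (∀ x ∈ A, ∀ y ∈ A, ∀ z ∈ A, RelN N C x y z ((k + (Nat.card G).primeFactorsList.length) ^ e)) →
    (∀ x ∈ A, ∀ y ∈ A, x ≠ y → P ∣ orderOf (x * y)) →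
    A.ncard ≤ 2 * (Nat.card G).primeFactorsList.length + 10 →
    2 ^ ((k + (Nat.card G).primeFactorsList.length) ^ c₀) ≤ P → Lst A

/-- LEVEL 3, far, for small sets. -/
def InvFarB : Prop :=
  ∃ e : ℕ, ∀ c₁ : ℕ, ∃ c₀ : ℕ, ∀ (G : Type) [Group G] [Finite G] (N C : Subgroup G) (eps : G →* ℤˣ) (k P : ℕ)
    (A : Set G) (a t b : G),
    Inv N C eps k P A c₁ a t b → Marg N k c₀ → ¬ RelN N C a t b ((k + (Nat.card G).primeFactorsList.length) ^ e) →
    A.ncard ≤ 2 * (Nat.card G).primeFactorsList.length + 10 →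
    2 ^ ((k + (Nat.card G).primeFactorsList.length) ^ c₀) ≤ P → Lst A

theorem ncard_le_six {G : Type u} {T : Finset G} {x₁ x₂ x₃ x₄ x₅ x₆ : G} :
    ((↑T : Set G) ∪ {x₁, x₂, x₃, x₄, x₅, x₆}).ncard ≤ T.card + 6 := by
  refine (Set.ncard_union_le _ _).trans ?_
  rw [Set.ncard_coe_finset]
  have h1 := Set.ncard_insert_le x₁ ({x₂, x₃, x₄, x₅, x₆} : Set G)
  have h2 := Set.ncard_insert_le x₂ ({x₃, x₄, x₅, x₆} : Set G)
  have h3 := Set.ncard_insert_le x₃ ({x₄, x₅, x₆} : Set G)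
  have h4 := Set.ncard_insert_le x₄ ({x₅, x₆} : Set G)
  have h5 := Set.ncard_insert_le x₅ ({x₆} : Set G)
  have h6 := Set.ncard_singleton x₆
  omega

/-- The small subset in the case of involutions. -/
theorem Inv.shrink {G : Type u} [Group G] [Finite G] {N C : Subgroup G} {eps : G →* ℤˣ} {k P : ℕ} {A : Set G} {c₁ : ℕ}
    {a t b : G} (h : Inv N C eps k P A c₁ a t b) : ∃ B ⊆ A, Inv N C eps k P B c₁ a t b ∧
      B.ncard ≤ 2 * (Nat.card G).primeFactorsList.length + 10 := by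
  obtain ⟨T, hT1, hT2, hT3⟩ := small_gen h.gen
  obtain ⟨x, hx, y, hy, z, hz, h1, h2, h3⟩ := three_of ⟨a, h.aA⟩ h.three
  have hBA : (↑T : Set G) ∪ {a, t, b, x, y, z} ⊆ A := by
    refine Set.union_subset hT1 ?_
    rintro s (rfl | rfl | rfl | rfl | rfl | rfl)
    exacts [h.aA, h.tA, h.bA, hx, hy, hz]
  refine ⟨_, hBA, ⟨h.toRefl.sub hBA (fun s hs => ?_) (top_le_iff.1 ?_) (a := x) (b := y) (c := z) ?_ ?_ ?_ h1 h2 h3,
    fun s hs => h.inv s (hBA hs), fun s hs s' hs' => h.diff s (hBA hs) s' (hBA hs'), ?_, ?_, ?_, h.hat, h.nab⟩, ?_⟩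
  · rwa [inv_eq_of_mul_eq_one_right (h.inv s (hBA hs))]
  · rw [← hT3]
    exact closure_mono Set.subset_union_left
  · right; simp
  · right; simp
  · right; simp
  · right; simp
  · right; simp
  · right; simp
  · have := ncard_le_six (T := T) (x₁ := a) (x₂ := t) (x₃ := b) (x₄ := x) (x₅ := y) (x₆ := z)
    omega

theorem invNear_of (h : InvNearB) : InvNearS := by
  intro e c₁
  obtain ⟨c₀, h0⟩ := h e c₁
  refine ⟨c₀, ?_⟩
  intro G _ _ N C eps k P A a t b hI hM hR hP hb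
  obtain ⟨B, hBA, hB, hc⟩ := hI.shrink
  exact SQ4.lst_mono' hBA (h0 G N C eps k P B a t b hB hM
    (fun x hx y hy z hz => hR x (hBA hx) y (hBA hy) z (hBA hz)) (fun x hx y hy => hP x (hBA hx) y (hBA hy)) hc hb)

theorem invFar_of (h : InvFarB) : InvFarS := by
  obtain ⟨e, h⟩ := h
  refine ⟨e, fun c₁ => ?_⟩
  obtain ⟨c₀, h0⟩ := h c₁
  refine ⟨c₀, ?_⟩
  intro G _ _ N C eps k P A a t b hI hM hR hb
  obtain ⟨B, hBA, hB, hc⟩ := hI.shrink
  exact SQ4.lst_mono' hBA (h0 G N C eps k P B a t b hB hM hR hc hb)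

theorem b1Full_of (h : B1FullB) : B1FullS := by
  classical
  intro c₁
  obtain ⟨c₀, h0⟩ := h c₁
  refine ⟨c₀, ?_⟩
  intro G _ _ N C eps k P A hI hM hS hb
  obtain ⟨s, hs, s', hs', hne, hsim⟩ := hS
  obtain ⟨T, hT1, hT2, hT3⟩ := small_gen hI.gen
  obtain ⟨x, hx, y, hy, z, hz, h1, h2, h3⟩ := three_of ⟨s, hs⟩ hI.three
  obtain ⟨U, hU⟩ : ∃ U : Finset G, U = T ∪ {s, s', x, y, z} := ⟨_, rfl⟩
  have hUA : (↑U : Set G) ⊆ A := by
    rw [hU]
    intro g hg
    simp only [Finset.coe_union, Finset.coe_insert, Finset.coe_singleton, Set.mem_union, Set.mem_insert_iff,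
      Set.mem_singleton_iff, Finset.mem_coe] at hg
    rcases hg with hg | rfl | rfl | rfl | rfl | rfl
    exacts [hT1 hg, hs, hs', hx, hy, hz]
  have hUc : U.card ≤ T.card + 5 := by
    rw [hU]
    refine (Finset.card_union_le _ _).trans (Nat.add_le_add_left ?_ _)
    exact Finset.card_le_five
  have hBA : (↑(U ∪ U.image (·⁻¹)) : Set G) ⊆ A := by
    intro g hg
    rw [Finset.mem_coe, Finset.mem_union, Finset.mem_image] at hg
    rcases hg with hg | ⟨u, hu, rfl⟩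
    · exact hUA hg
    · exact hI.sym u (hUA hu)
  have hU1 : ∀ g ∈ U, g ∈ (↑(U ∪ U.image (·⁻¹)) : Set G) := fun g hg => by
    rw [Finset.mem_coe, Finset.mem_union]
    exact Or.inl hg
  have hin : ∀ g ∈ ({s, s', x, y, z} : Finset G), g ∈ (↑(U ∪ U.image (·⁻¹)) : Set G) := fun g hg =>
    hU1 g (hU ▸ Finset.mem_union_right _ hg)
  refine SQ4.lst_mono' hBA (h0 G N C eps k P _ (hI.sub hBA (fun g hg => ?_) (top_le_iff.1 ?_) (a := x) (b := y) (c := z)
    (hin x (by simp)) (hin y (by simp)) (hin z (by simp)) h1 h2 h3) hM ⟨s, hin s (by simp), s', hin s' (by simp), hne,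
    hsim⟩ ?_ hb)
  · rw [Finset.mem_coe, Finset.mem_union, Finset.mem_image] at hg ⊢
    rcases hg with hg | ⟨u, hu, rfl⟩
    · exact Or.inr ⟨g, hg, rfl⟩
    · exact Or.inl (by rwa [inv_inv])
  · rw [← hT3]
    refine closure_mono fun g hg => hU1 g ?_
    rw [hU]
    exact Finset.mem_union_left _ hg
  · rw [Set.ncard_coe_finset]
    have e1 := Finset.card_union_le U (U.image (·⁻¹))
    have e2 : (U.image (·⁻¹)).card ≤ U.card := Finset.card_image_le
    omega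

end Pool.Agent.Lib.MP_688fd0_co.SQD
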