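import Pool.Agent.Lib.MP_688fd0_co.SQ5.H23.C2

/-!
C2, LEVELS 3 and 4: targets.

All letters are reflections (`eps = -1`). `N = C × N₁`, the primes of `N₁` are those of `|N|` which do not divide `|C|`.
* `B1FullS`: two letters with equal heights at all primes of `N₁` (every letter which is not an involution gives such a
  pair `a, a⁻¹`).
* `InvNearS`, `InvFarS`: all letters are involutions with pairwise different heights; a triple `a, t, b` which is not
  commutative modulo `N`, `P ∣ ord (a t)`; nearness is measured at all primes of `N₁` at once; `DichoS` is the case split.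
-/

set_option autoImplicit false

namespace Pool.Agent.Lib.MP_688fd0_co.SQD

open Pool.Agent.Lib.MP_688fd0_co.OSF Pool.Agent.Lib.MP_688fd0_co.SQ3
open Subgroup

universe u

/-- Equal heights at all primes of `N₁`. -/
def Sim {G : Type u} [Group G] (N C : Subgroup G) (s s' : G) : Prop :=
  ∀ p ∈ (Nat.card N).primeFactors, ¬ p ∣ Nat.card C → ¬ p ∣ orderOf (s * s'⁻¹)

/-- All letters are reflections; more than two `P`-heights; the quadratic primes of `C` are small. -/
structure Refl {G : Type u} [Group G] (N C : Subgroup G) (eps : G →* ℤˣ) (k P : ℕ) (A : Set G) (c₁ : ℕ) : Prop where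
  gn : GN N C eps k P
  sym : ∀ x ∈ A, x⁻¹ ∈ A
  gen : closure A = ⊤
  neg : ∀ a ∈ A, eps a = -1
  three : ¬ ∃ a ∈ A, ∃ b ∈ A, ∀ s ∈ A, ¬ P ∣ orderOf (s * a⁻¹) ∨ ¬ P ∣ orderOf (s * b⁻¹)
  small : ∀ p ∈ (Nat.card C).primeFactors,
    (∀ y ∈ C, orderOf y = p → ∀ g : G, g * y * g⁻¹ = y ∨ g * y * g⁻¹ = y⁻¹) →
      p < 2 ^ ((k + (Nat.card G).primeFactorsList.length) ^ c₁)

/-- LEVEL 4: two letters of equal height. -/
def B1FullS : Prop :=
  ∀ c₁ : ℕ, ∃ c₀ : ℕ, ∀ (G : Type) [Group G] [Finite G] (N C : Subgroup G) (eps : G →* ℤˣ) (k P : ℕ) (A : Set G),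
    Refl N C eps k P A c₁ → Marg N k c₀ → (∃ s ∈ A, ∃ s' ∈ A, s ≠ s' ∧ Sim N C s s') →
    2 ^ ((k + (Nat.card G).primeFactorsList.length) ^ c₀) ≤ P → Lst A

/-- All letters are involutions with pairwise different heights; the triple `a, t, b` is not commutative modulo `N` and its
`P`-heights are not all equal. -/
structure Inv {G : Type u} [Group G] (N C : Subgroup G) (eps : G →* ℤˣ) (k P : ℕ) (A : Set G) (c₁ : ℕ) (a t b : G) :
    Prop extends Refl N C eps k P A c₁ where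
  inv : ∀ s ∈ A, s * s = 1
  diff : ∀ s ∈ A, ∀ s' ∈ A, s ≠ s' → ¬ Sim N C s s'
  aA : a ∈ A
  tA : t ∈ A
  bA : b ∈ A
  hat : P ∣ orderOf (a * t)
  nab : (a * t) * (b * t) * (a * t)⁻¹ * (b * t)⁻¹ ∉ N

/-- Short relation of the heights of `a, t, b` at all primes of `N₁`: `m (h a - h t) + n (h b - h t) = 0`. -/
def RelN {G : Type u} [Group G] (N C : Subgroup G) (a t b : G) (τ : ℕ) : Prop :=
  ∃ m n : ℤ, (m ≠ 0 ∨ n ≠ 0) ∧ |m| ≤ τ ∧ |n| ≤ τ ∧
    ∀ p ∈ (Nat.card N).primeFactors, ¬ p ∣ Nat.card C → ¬ p ∣ orderOf ((a * t) ^ m * (b * t) ^ n)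

/-- LEVEL 3, near: ALL triples of letters have short relations (`a, t, b` is only a triple which is not commutative modulo
`N`), and the `P`-heights of the letters are pairwise different. -/
def InvNearS : Prop :=
  ∀ e c₁ : ℕ, ∃ c₀ : ℕ, ∀ (G : Type) [Group G] [Finite G] (N C : Subgroup G) (eps : G →* ℤˣ) (k P : ℕ) (A : Set G)
    (a t b : G),
    Inv N C eps k P A c₁ a t b → Marg N k c₀ →
    (∀ x ∈ A, ∀ y ∈ A, ∀ z ∈ A, RelN N C x y z ((k + (Nat.card G).primeFactorsList.length) ^ e)) →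
    (∀ x ∈ A, ∀ y ∈ A, x ≠ y → P ∣ orderOf (x * y)) →
    2 ^ ((k + (Nat.card G).primeFactorsList.length) ^ c₀) ≤ P → Lst A

/-- LEVEL 3, far (`e` is at the disposal of the proof): the triple `a, t, b` (not commutative modulo `N`, `P ∣ ord (a t)`)
has no short relation; all other letters are arbitrary. -/
def InvFarS : Prop :=
  ∃ e : ℕ, ∀ c₁ : ℕ, ∃ c₀ : ℕ, ∀ (G : Type) [Group G] [Finite G] (N C : Subgroup G) (eps : G →* ℤˣ) (k P : ℕ)
    (A : Set G) (a t b : G),
    Inv N C eps k P A c₁ a t b → Marg N k c₀ → ¬ RelN N C a t b ((k + (Nat.card G).primeFactorsList.length) ^ e) →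
    2 ^ ((k + (Nat.card G).primeFactorsList.length) ^ c₀) ≤ P → Lst A

/-- DICHO: if all triples which are not commutative modulo `N` and whose `P`-heights are not all equal have short relations
then all triples have short relations, and the `P`-heights are pairwise different. -/
def DichoS : Prop :=
  ∀ (G : Type) [Group G] [Finite G] (N C : Subgroup G) (eps : G →* ℤˣ) (k P : ℕ) (A : Set G) (c₁ : ℕ) (a t b : G)
    (τ : ℕ), Inv N C eps k P A c₁ a t b → (∀ p ∈ (Nat.card N).primeFactors, 64 * τ ^ 6 < p) → 0 < τ →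
    (∀ x ∈ A, ∀ y ∈ A, ∀ z ∈ A, P ∣ orderOf (x * y) → (x * y) * (z * y) * (x * y)⁻¹ * (z * y)⁻¹ ∉ N →
      RelN N C x y z τ) →
    (∀ x ∈ A, ∀ y ∈ A, ∀ z ∈ A, RelN N C x y z (16 * τ ^ 6)) ∧ ∀ x ∈ A, ∀ y ∈ A, x ≠ y → P ∣ orderOf (x * y)

end Pool.Agent.Lib.MP_688fd0_co.SQD
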