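import Pool.Agent.Lib.MP_688fd0_co.SQ5.H23.GoodX
import Pool.Agent.Lib.MP_688fd0_co.SQ5.H23.C2All
import Pool.Agent.Lib.MP_688fd0_co.SQ5.H49.ClassX

/-!
C2: the assembly of LEVEL 4 (every symmetric generating set).
-/

set_option autoImplicit false

namespace Pool.Agent.Lib.MP_688fd0_co.SQD

open Pool.Agent.Lib.MP_688fd0_co.OSF Pool.Agent.Lib.MP_688fd0_co.SQ3
open Subgroup

universe u

/-- Every prime of `N₁` may take the place of `P`. -/
theorem gn_prime {G : Type u} [Group G] [Finite G] {N C : Subgroup G} {eps : G →* ℤˣ} {k P p : ℕ}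
    (h : GN N C eps k P) (hp : p ∈ (Nat.card N).primeFactors) (hpC : ¬ p ∣ Nat.card C) : GN N C eps k p := by
  have hpp := Nat.prime_of_mem_primeFactors hp
  have hpN := Nat.dvd_of_mem_primeFactors hp
  refine { h with prime := hpp, dvd := hpN, ndvd := hpC, sq := ?_ }
  intro h2
  have h3 : (p ^ 2).Coprime k := Nat.Coprime.pow_left 2 (Nat.Coprime.coprime_dvd_left hpN h.cop)
  have h4 : Nat.card G = Nat.card N * k := by rw [← h.idx]; exact N.card_mul_index.symm
  rw [h4] at h2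
  have h5 := h3.dvd_of_dvd_mul_right h2
  have h6 := h.Nsq p (by rw [← pow_two]; exact h5)
  exact hpp.one_lt.ne' (Nat.isUnit_iff.1 h6)

/-- A letter and its inverse have equal heights. -/
theorem sim_inv {G : Type} [Group G] [Finite G] {N C : Subgroup G} {eps : G →* ℤˣ} {k P : ℕ}
    (h : GN N C eps k P) {a : G} (ha : eps a = -1) : Sim N C a a⁻¹ := by
  intro p hp hpC
  have hg := gn_prime h hp hpC
  have hp4 := P_ne_two hg.toGNE
  obtain ⟨-, hodd⟩ := SQ6.H74.part G N C eps k p hg (by omega)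
  have h1 := hodd a ha
  rw [inv_inv, ← pow_two]
  exact fun h2 => h1 (h2.trans (orderOf_pow_dvd 2))

/-- Either the quadratic primes of `C` are small or one of them is good and centralised by a letter. -/
theorem small_orG {c c₁ : ℕ} {G : Type u} [Group G] [Finite G] {k m : ℕ} {N C : Subgroup G} {eps : G →* ℤˣ} {P : ℕ}
    (hD : CutX c (Nat.card G) k m) (hG : GN N C eps k P) {A : Set G}
    (heps : ∀ a ∈ A, eps a = -1) (hgen : closure A = ⊤) (hc : c ≤ c₁) :
    (∀ p ∈ (Nat.card C).primeFactors,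
      (∀ y ∈ C, orderOf y = p → ∀ g : G, g * y * g⁻¹ = y ∨ g * y * g⁻¹ = y⁻¹) →
        p < 2 ^ ((k + (Nat.card G).primeFactorsList.length) ^ c₁)) ∨
    ∃ (p : ℕ) (y : G), GoodX c (Nat.card G) p ∧ orderOf y = p ∧ (∀ g, g * y * g⁻¹ = y ∨ g * y * g⁻¹ = y⁻¹) ∧
      ∃ a ∈ A, a ≠ 1 ∧ a * y = y * a := by
  by_cases hsm : ∀ p ∈ (Nat.card C).primeFactors,
      (∀ y ∈ C, orderOf y = p → ∀ g : G, g * y * g⁻¹ = y ∨ g * y * g⁻¹ = y⁻¹) →
        p < 2 ^ ((k + (Nat.card G).primeFactorsList.length) ^ c₁)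
  · exact Or.inl hsm
  right
  push Not at hsm
  obtain ⟨p, hp, hquad, hbig⟩ := hsm
  have hk : 0 < k := by
    rw [← hG.idx]
    exact Nat.pos_of_ne_zero N.index_ne_zero_of_finite
  have hpp := Nat.prime_of_mem_primeFactors hp
  have hpC := Nat.dvd_of_mem_primeFactors hp
  have hpf : Fact p.Prime := ⟨hpp⟩
  obtain ⟨⟨y, hyC⟩, hy⟩ := exists_prime_orderOf_dvd_card' (G := C) p hpC
  rw [Subgroup.orderOf_mk] at hy
  have hNm : Nat.card N = m := by
    have h4 := N.card_mul_index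
    rw [hG.idx, hD.eq, mul_comm] at h4
    exact Nat.eq_of_mul_eq_mul_left hk h4
  have hpm : p ∈ m.primeFactors := by
    refine Nat.mem_primeFactors.2 ⟨hpp, ?_, ?_⟩
    · rw [← hNm]
      exact hpC.trans (Subgroup.card_dvd_of_le hG.CN)
    · rw [← hNm]
      exact Nat.card_pos.ne'
  have hgood : GoodX c (Nat.card G) p := by
    refine ⟨k, m, hD, hpm, le_trans ?_ hbig⟩
    exact Nat.pow_le_pow_right (by norm_num) (Nat.pow_le_pow_right (by omega) hc)
  have hy1 : y ≠ 1 := by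
    rintro rfl
    rw [orderOf_one] at hy
    exact hpp.one_lt.ne hy
  have hact := hquad y hyC hy
  refine ⟨p, y, hgood, hy, hact, ?_⟩
  by_contra hno
  push Not at hno
  have hall : ∀ a ∈ A, a * y * a⁻¹ = y⁻¹ := by
    intro a ha
    have ha1 : a ≠ 1 := by
      rintro rfl
      have := heps 1 ha
      rw [map_one] at this
      exact absurd this (by decide)
    rcases hact a with h1 | h1
    · rw [mul_inv_eq_iff_eq_mul] at h1
      exact (hno a ha ha1 h1).elim
    · exact h1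
  refine hy1 (hG.nact y hyC ?_)
  intro g
  have hg : g ∈ closure A := by rw [hgen]; exact mem_top g
  induction hg using closure_induction with
  | mem a ha => rw [hall a ha, heps a ha]; simp
  | one => simp
  | mul x z _ _ hx hz =>
    have h1 : x * z * y * (x * z)⁻¹ = x * (z * y * z⁻¹) * x⁻¹ := by group
    rw [h1, hz, ← conj_zpow, hx, map_mul, Units.val_mul, zpow_mul]
  | inv x _ hx =>
    rcases Int.units_eq_one_or (eps x) with h1 | h1
    · rw [h1, Units.val_one, zpow_one] at hx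
      rw [map_inv, h1, inv_one, Units.val_one, zpow_one, inv_inv]
      rw [mul_inv_eq_iff_eq_mul] at hx
      rw [mul_assoc, ← hx, ← mul_assoc, inv_mul_cancel, one_mul]
    · rw [h1, Units.val_neg, Units.val_one, zpow_neg_one] at hx
      rw [map_inv, h1, inv_neg, inv_one, Units.val_neg, Units.val_one, zpow_neg_one, inv_inv]
      have h2 : y = x⁻¹ * y⁻¹ * x := by
        rw [← hx]; group
      have h3 : y⁻¹ = (x⁻¹ * y⁻¹ * x)⁻¹ := congrArg (·⁻¹) h2
      rw [h3]
      group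

/-- A triple which is not commutative modulo `N` and whose `P`-heights are not all equal. -/
theorem exists_triple {G : Type} [Group G] [Finite G] {N C : Subgroup G} {eps : G →* ℤˣ} {k P : ℕ} {A : Set G}
    (hG : GN N C eps k P) (hneg : ∀ a ∈ A, eps a = -1) (hinv : ∀ a ∈ A, a * a = 1) (hgen : closure A = ⊤)
    (hthree : ¬ ∃ a ∈ A, ∃ b ∈ A, ∀ s ∈ A, ¬ P ∣ orderOf (s * a⁻¹) ∨ ¬ P ∣ orderOf (s * b⁻¹))
    (hnab : ¬ ∀ x y : G, eps x = 1 → eps y = 1 → x * y * x⁻¹ * y⁻¹ ∈ N) :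
    ∃ a ∈ A, ∃ t ∈ A, ∃ b ∈ A, P ∣ orderOf (a * t) ∧ (a * t) * (b * t) * (a * t)⁻¹ * (b * t)⁻¹ ∉ N := by
  classical
  have hNn := hG.Nn
  have hP4 := P_ne_two hG.toGNE
  obtain ⟨⟨M, -, hM⟩, -⟩ := SQ6.H74.part G N C eps k P hG (by omega)
  have hii : ∀ a ∈ A, a⁻¹ = a := fun a ha => inv_eq_of_mul_eq_one_left (hinv a ha)
  by_contra hno
  push Not at hno
  set f := QuotientGroup.mk' N with hf
  have hcm : ∀ x y : G, x * y * x⁻¹ * y⁻¹ ∈ N ↔ Commute (f x) (f y) := by
    intro x y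
    rw [← QuotientGroup.eq_one_iff, Commute, SemiconjBy]
    change f (x * y * x⁻¹ * y⁻¹) = 1 ↔ _
    rw [map_mul, map_mul, map_mul, map_inv, map_inv, mul_inv_eq_one, mul_inv_eq_iff_eq_mul]
  have hno' : ∀ a ∈ A, ∀ t ∈ A, ∀ b ∈ A, P ∣ orderOf (a * t) → Commute (f (a * t)) (f (b * t)) :=
    fun a ha t ht b hb h => (hcm _ _).1 (hno a ha t ht b hb h)
  have heven : ∀ x ∈ A, ∀ z ∈ A, eps (x * z) = 1 := fun x hx z hz => by
    rw [map_mul, hneg x hx, hneg z hz]; simp
  have hmem : ∀ x ∈ A, ∀ z ∈ A, ¬ P ∣ orderOf (x * z) → x * z ∈ M := fun x hx z hz h =>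
    (hM _).2 ⟨heven x hx z hz, h⟩
  have hswap : ∀ x ∈ A, ∀ z ∈ A, z * x = (x * z)⁻¹ := fun x hx z hz => by
    rw [mul_inv_rev, hii x hx, hii z hz]
  -- any two quotients with a common letter commute
  have key : ∀ x ∈ A, ∀ y ∈ A, ∀ z ∈ A, Commute (f (x * z)) (f (y * z)) := by
    intro x hx y hy z hz
    by_cases h1 : P ∣ orderOf (x * z)
    · exact hno' x hx z hz y hy h1
    by_cases h2 : P ∣ orderOf (y * z)
    · exact (hno' y hy z hz x hx h2).symm
    have hxz := hmem x hx z hz h1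
    have hyz := hmem y hy z hz h2
    obtain ⟨d, hd, hdz⟩ : ∃ d ∈ A, P ∣ orderOf (d * z) := by
      by_contra h3
      push Not at h3
      exact hthree ⟨z, hz, z, hz, fun s hs => Or.inl (by rw [hii z hz]; exact h3 s hs)⟩
    have hdzM : d * z ∉ M := fun h3 => ((hM _).1 h3).2 hdz
    have hP : ∀ w ∈ A, w * z ∈ M → P ∣ orderOf (w * d) := by
      intro w hw hwz
      by_contra h3
      have h4 := hmem w hw d hd h3
      apply hdzM
      have h5 : d * z = (w * d)⁻¹ * (w * z) := by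
        rw [mul_inv_rev, hii w hw, hii d hd]
        calc d * z = d * (w * w) * z := by rw [hinv w hw, mul_one]
          _ = d * w * (w * z) := by group
      rw [h5]
      exact M.mul_mem (M.inv_mem h4) hwz
    have hzz : z * z ∈ M := by rw [hinv z hz]; exact one_mem M
    have c1 := hno' x hx d hd y hy (hP x hx hxz)
    have c2 := hno' x hx d hd z hz (hP x hx hxz)
    have c3 := hno' y hy d hd z hz (hP y hy hyz)
    have e1 : ∀ w ∈ A, w * z = (w * d) * (z * d)⁻¹ := by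
      intro w _
      rw [mul_inv_rev, hii z hz, hii d hd]
      calc w * z = w * (d * d) * z := by rw [hinv d hd, mul_one]
        _ = w * d * (d * z) := by group
    rw [e1 x hx, e1 y hy, map_mul, map_mul, map_inv]
    exact (c1.mul_right c2.inv_right).mul_left ((c3.symm.inv_left).mul_right (Commute.refl _))
  -- `ker eps`
  obtain ⟨z, hz⟩ : A.Nonempty := by
    by_contra h0
    rw [Set.not_nonempty_iff_eq_empty] at h0
    apply hnab
    intro x y _ _
    have hx : x ∈ closure A := by rw [hgen]; exact mem_top x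
    rw [h0, Subgroup.closure_empty, mem_bot] at hx
    rw [hx]
    simp
  set K := closure ((fun x => x * z) '' A) with hK
  have hKc : ∀ u ∈ K, ∀ v ∈ K, Commute (f u) (f v) := by
    have h1 : ∀ y ∈ A, ∀ u ∈ K, Commute (f u) (f (y * z)) := by
      intro y hy u hu
      induction hu using closure_induction with
      | mem u hu =>
        obtain ⟨x, hx, rfl⟩ := hu
        exact key x hx y hy z hz
      | one => rw [map_one]; exact Commute.one_left _
      | mul u v _ _ hu hv => rw [map_mul]; exact hu.mul_left hv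
      | inv u _ hu => rw [map_inv]; exact hu.inv_left
    intro u hu v hv
    induction hv using closure_induction with
    | mem v hv =>
      obtain ⟨y, hy, rfl⟩ := hv
      exact h1 y hy u hu
    | one => rw [map_one]; exact Commute.one_right _
    | mul v w _ _ hv hw => rw [map_mul]; exact hv.mul_right hw
    | inv v _ hv => rw [map_inv]; exact hv.inv_right
  have hKe : ∀ u ∈ K, eps u = 1 := by
    intro u hu
    induction hu using closure_induction with
    | mem u hu =>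
      obtain ⟨x, hx, rfl⟩ := hu
      exact heven x hx z hz
    | one => exact map_one eps
    | mul u v _ _ hu hv => rw [map_mul, hu, hv, one_mul]
    | inv u _ hu => rw [map_inv, hu, inv_one]
  have hxzK : ∀ x ∈ A, x * z ∈ K := fun x hx => subset_closure ⟨x, hx, rfl⟩
  have hall : ∀ g : G, g ∈ K ∨ g * z ∈ K := by
    intro g
    have hg : g ∈ closure A := by rw [hgen]; exact mem_top g
    have step : ∀ g : G, ∀ x ∈ A, (g ∈ K ∨ g * z ∈ K) → (g * x ∈ K ∨ g * x * z ∈ K) := by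
      intro g x hx h
      rcases h with h | h
      · right
        rw [mul_assoc]
        exact K.mul_mem h (hxzK x hx)
      · left
        have h2 : g * x = g * z * (x * z)⁻¹ := by
          rw [mul_inv_rev, hii x hx, hii z hz]
          calc g * x = g * (z * z) * x := by rw [hinv z hz, mul_one]
            _ = g * z * (z * x) := by group
        rw [h2]
        exact K.mul_mem h (K.inv_mem (hxzK x hx))
    induction hg using closure_induction_right with
    | one => exact Or.inl (one_mem K)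
    | mul_right g _ x hx h => exact step g x hx h
    | mul_inv_cancel g _ x hx h => rw [hii x hx]; exact step g x hx h
  have hmemK : ∀ g : G, eps g = 1 → g ∈ K := by
    intro g hg
    rcases hall g with h | h
    · exact h
    · exfalso
      have h2 := hKe _ h
      rw [map_mul, hg, hneg z hz, one_mul] at h2
      exact absurd h2 (by decide)
  exact hnab fun x y hx hy => (hcm x y).2 (hKc x (hmemK x hx) y (hmemK y hy))

/-- **C2**: all sets of reflections. -/
theorem refl_of (hT : SQ6.TwoHS) (hDi : DichoS) (hB : B1FullS) (hN : InvNearS) (hF : InvFarS) (c₁ : ℕ) : ∃ c₀ : ℕ,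
    ∀ (G : Type) [Group G] [Finite G] (N C : Subgroup G) (eps : G →* ℤˣ) (k P : ℕ) (A : Set G),
    GN N C eps k P → (∀ x ∈ A, x⁻¹ ∈ A) → closure A = ⊤ → (∀ a ∈ A, eps a = -1) →
    (∀ p ∈ (Nat.card C).primeFactors,
      (∀ y ∈ C, orderOf y = p → ∀ g : G, g * y * g⁻¹ = y ∨ g * y * g⁻¹ = y⁻¹) →
        p < 2 ^ ((k + (Nat.card G).primeFactorsList.length) ^ c₁)) →
    Marg N k c₀ → 2 ^ ((k + (Nat.card G).primeFactorsList.length) ^ c₀) ≤ P → Lst A := by
  obtain ⟨c₂, hT⟩ := hT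
  obtain ⟨c₃, hB⟩ := hB c₁
  obtain ⟨e, hF⟩ := hF
  obtain ⟨c₄, hF⟩ := hF c₁
  obtain ⟨c₅, hN⟩ := hN (6 * e + 4) c₁
  refine ⟨max (max c₂ c₃) (max (max c₄ c₅) (6 * e + 6)), ?_⟩
  intro G _ _ N C eps k P A hG hA hgen hneg hsmall hM hP
  have hk : 0 < k := by
    rw [← hG.idx]
    exact Nat.pos_of_ne_zero N.index_ne_zero_of_finite
  have hPc : ∀ c ≤ max (max c₂ c₃) (max (max c₄ c₅) (6 * e + 6)), 2 ^ ((k + (Nat.card G).primeFactorsList.length) ^ c) ≤ P :=
    fun c hc => (Nat.pow_le_pow_right (by norm_num) (Nat.pow_le_pow_right (by omega) hc)).trans hP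
  by_cases hthree : ∃ a ∈ A, ∃ b ∈ A, ∀ s ∈ A, ¬ P ∣ orderOf (s * a⁻¹) ∨ ¬ P ∣ orderOf (s * b⁻¹)
  · exact hT G N C eps k P A hG hA hgen hneg hthree (hPc c₂ (by omega))
  have hR : Refl N C eps k P A c₁ := ⟨hG, hA, hgen, hneg, hthree, hsmall⟩
  by_cases hsim : ∃ s ∈ A, ∃ s' ∈ A, s ≠ s' ∧ Sim N C s s'
  · exact hB G N C eps k P A hR (hM.mono (by omega)) hsim (hPc c₃ (by omega))
  push Not at hsim
  have hinv : ∀ s ∈ A, s * s = 1 := by
    intro s hs
    by_contra h1
    refine hsim s hs s⁻¹ (hA s hs) (fun h2 => h1 ?_) (sim_inv hG (hneg s hs))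
    exact mul_eq_one_iff_eq_inv.2 h2
  by_cases hab : ∀ x y : G, eps x = 1 → eps y = 1 → x * y * x⁻¹ * y⁻¹ ∈ N
  · have hNn := hG.Nn
    have hco : (Nat.card N).Coprime N.index := by rw [hG.idx]; exact hG.cop
    have hne : A.Nonempty := by
      by_contra h0
      rw [Set.not_nonempty_iff_eq_empty] at h0
      rw [h0, Subgroup.closure_empty] at hgen
      have h1 : Nat.card G = 1 := by
        rw [← Subgroup.card_top, ← hgen, Subgroup.card_bot]
      have h2 := hG.dvd.trans (Subgroup.card_subgroup_dvd_card N)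
      rw [h1, Nat.dvd_one] at h2
      exact hG.prime.one_lt.ne' h2
    exact Pool.Agent.Lib.MP_688fd0_co.SQ5.H49.classX _ eps N hG.Nc hco hne hinv hneg hgen hab
  obtain ⟨a, ha, t, ht, b, hb, hat, hnab⟩ := exists_triple hG hneg hinv hgen hthree hab
  have hI : ∀ a ∈ A, ∀ t ∈ A, ∀ b ∈ A, P ∣ orderOf (a * t) → (a * t) * (b * t) * (a * t)⁻¹ * (b * t)⁻¹ ∉ N →
      Inv N C eps k P A c₁ a t b := fun a ha t ht b hb hat hnab => { hR with
    inv := hinv
    diff := hsim
    aA := ha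
    tA := ht
    bA := hb
    hat := hat
    nab := hnab }
  set s := k + (Nat.card G).primeFactorsList.length with hs
  have hs2 : 2 ≤ s := by
    have hPG : P ∣ Nat.card G := hG.dvd.trans (Subgroup.card_subgroup_dvd_card N)
    have h1 : P ∈ (Nat.card G).primeFactorsList :=
      (Nat.mem_primeFactorsList Nat.card_pos.ne').2 ⟨hG.prime, hPG⟩
    have h2 := List.length_pos_of_mem h1
    omega
  by_cases hfar : ∃ a ∈ A, ∃ t ∈ A, ∃ b ∈ A, P ∣ orderOf (a * t) ∧
      (a * t) * (b * t) * (a * t)⁻¹ * (b * t)⁻¹ ∉ N ∧ ¬ RelN N C a t b (s ^ e)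
  · obtain ⟨a, ha, t, ht, b, hb, hat, hnab, hR'⟩ := hfar
    exact hF G N C eps k P A a t b (hI a ha t ht b hb hat hnab) (hM.mono (by omega)) hR' (hPc c₄ (by omega))
  push Not at hfar
  have hmarg : ∀ p ∈ (Nat.card N).primeFactors, 64 * (s ^ e) ^ 6 < p := by
    intro p hp
    refine lt_of_le_of_lt ?_ ((hM.mono (c := 6 * e + 6) (by omega)) p hp)
    have h1 : (64 : ℕ) ≤ s ^ 6 := by
      calc (64 : ℕ) = 2 ^ 6 := by norm_num
        _ ≤ s ^ 6 := Nat.pow_le_pow_left hs2 6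
    calc 64 * (s ^ e) ^ 6 ≤ s ^ 6 * (s ^ e) ^ 6 := Nat.mul_le_mul_right _ h1
      _ = s ^ (6 * e + 6) := by rw [← pow_mul, ← pow_add]; congr 1; ring
      _ ≤ (s + 2) ^ (6 * e + 6) := Nat.pow_le_pow_left (by omega) _
  obtain ⟨h1, h2⟩ := hDi G N C eps k P A c₁ a t b (s ^ e) (hI a ha t ht b hb hat hnab) hmarg
    (Nat.pow_pos (by omega)) fun x hx y hy z hz h3 h4 => hfar x hx y hy z hz h3 h4
  have h16 : 16 * (s ^ e) ^ 6 ≤ s ^ (6 * e + 4) := by
    calc 16 * (s ^ e) ^ 6 ≤ s ^ 4 * (s ^ e) ^ 6 := Nat.mul_le_mul_right _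
          (by calc (16 : ℕ) = 2 ^ 4 := by norm_num
                _ ≤ s ^ 4 := Nat.pow_le_pow_left hs2 4)
      _ = s ^ (6 * e + 4) := by rw [← pow_mul, ← pow_add]; congr 1; ring
  refine hN G N C eps k P A a t b (hI a ha t ht b hb hat hnab) (hM.mono (by omega)) ?_ h2 (hPc c₅ (by omega))
  intro x hx y hy z hz
  obtain ⟨m, n, h3, h4, h5, h6⟩ := h1 x hx y hy z hz
  have h7 : ((16 * (s ^ e) ^ 6 : ℕ) : ℤ) ≤ ((s ^ (6 * e + 4) : ℕ) : ℤ) := by exact_mod_cast h16
  exact ⟨m, n, h3, h4.trans h7, h5.trans h7, h6⟩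

/-- **Every symmetric generating set** of a group of good order. -/
theorem listingAll (hM : SQ4.MainCS) (hT : SQ6.TwoHS) (hDi : DichoS) (hB : B1FullS) (hN : InvNearS)
    (hF : InvFarS) :
    ∃ c : ℕ, ∀ (G : Type u) [Group G] [Finite G] (P : ℕ), GoodX c (Nat.card G) P → ∀ y : G, orderOf y = P →
    (∀ g, g * y * g⁻¹ = y ∨ g * y * g⁻¹ = y⁻¹) →
    ∀ A : Set G, (∀ x ∈ A, x⁻¹ ∈ A) → closure A = ⊤ → Lst A := by
  obtain ⟨c₁, h₁⟩ := SQ4.listingN.{u} hM
  obtain ⟨c₁', h₁'⟩ := SQ4.listingN.{0} hM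
  obtain ⟨c₀, h₀⟩ := refl_of hT hDi hB hN hF c₁'
  refine ⟨max c₁ (max c₁' c₀), ?_⟩
  intro G _ _ P hn y hy hact A hA hgen
  have hG0 : Nat.card G ≠ 0 := Nat.card_pos.ne'
  by_cases hc : ∃ r ∈ A, r ≠ 1 ∧ r * y = y * r
  · exact h₁ G P (hn.mono (le_max_left _ _) hG0).good y hy hact A hA hgen hc
  push Not at hc
  have hn₀ : GoodX (max c₁' c₀) (Nat.card G) P := hn.mono (le_max_right _ _) hG0
  obtain ⟨H, hH, hf, e, N, C, eps, k, hNC, heps, hMg, hPb, m, hD⟩ := reduceX hn₀ hy hact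
  have hk : 0 < k := by
    rw [← hNC.idx]
    exact Nat.pos_of_ne_zero N.index_ne_zero_of_finite
  have hA1 : ∀ x ∈ A \ {1}, x⁻¹ ∈ A \ {1} := fun x hx => ⟨hA x hx.1, fun h => hx.2 (inv_eq_one.1 h)⟩
  refine SQ4.lst_mono' (Set.sdiff_subset (s := A) (t := {1})) (SQ2.lst_equiv e _ ?_)
  have hsym : ∀ x ∈ (e '' (A \ {1}) : Set H), x⁻¹ ∈ (e '' (A \ {1}) : Set H) := by
    rintro _ ⟨x, hx, rfl⟩
    exact ⟨x⁻¹, hA1 x hx, map_inv e x⟩
  have hgen' : closure (e '' (A \ {1}) : Set H) = ⊤ := by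
    have h2 := congrArg (Subgroup.map e.toMonoidHom) (SQ4.closure_diff_one hgen)
    rw [MonoidHom.map_closure, ← MonoidHom.range_eq_map, MonoidHom.range_eq_top.2 e.surjective] at h2
    exact h2
  have hneg : ∀ a ∈ (e '' (A \ {1}) : Set H), eps a = -1 := by
    rintro _ ⟨x, hx, rfl⟩
    exact (Int.units_eq_one_or (eps (e x))).resolve_left fun h2 => hc x hx.1 hx.2 ((heps x).1 h2)
  rcases small_orG (c := c₁') (c₁ := c₁') (hD.mono (le_max_left _ _)) hNC hneg hgen' le_rfl with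
    hsm | ⟨p, y', hp, hy', hact', hr⟩
  · refine h₀ H N C eps k P _ hNC hsym hgen' hneg hsm (hMg.mono (le_max_right _ _)) (le_trans ?_ hPb)
    exact Nat.pow_le_pow_right (by norm_num) (Nat.pow_le_pow_right (by omega) (le_max_right _ _))
  · exact h₁' H p hp.good y' hy' hact' _ hsym hgen' hr

end Pool.Agent.Lib.MP_688fd0_co.SQD
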