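import Pool.Agent.Lib.MP_688fd0_co.SQ4.H23.Two
import Pool.Agent.Lib.MP_688fd0_co.SQ5.H23.C2

/-!
C2: good prime divisors with a margin, and the density statement `NiceCS` (helper85).
-/

set_option autoImplicit false

namespace Pool.Agent.Lib.MP_688fd0_co.SQD

open Pool.Agent.Lib.MP_688fd0_co.OSF Pool.Agent.Lib.MP_688fd0_co.SQ3
open Subgroup

universe u

/-- A cut with the margin `(k + Ω(n) + 2) ^ c`. -/
structure CutX (c n k m : ℕ) : Prop extends SQ3.CutE n k m where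
  mar : ∀ p ∈ m.primeFactors, (k + n.primeFactorsList.length + 2) ^ c < p

/-- `P` is a good prime divisor of `n`. -/
def GoodX (c n P : ℕ) : Prop :=
  ∃ k m, CutX c n k m ∧ P ∈ m.primeFactors ∧ 2 ^ ((k + n.primeFactorsList.length) ^ c) ≤ P

/-- `n` has a cut with margin and small `k`. -/
def NiceC (c n : ℕ) : Prop :=
  ∃ k m, CutX c n k m ∧ (k + n.primeFactorsList.length) ^ c ≤ Nat.log 2 n

open Classical in
/-- Almost all integers have a cut with margin and small `k`. -/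
def NiceCS : Prop :=
  ∀ (c : ℕ) (ε : ℝ), 0 < ε → ∃ x₀ : ℕ, ∀ x ≥ x₀,
    (((Finset.Icc 1 x).filter (fun n => ¬ NiceC c n)).card : ℝ) ≤ ε * x

theorem CutX.mono {c c' n k m : ℕ} (h : c ≤ c') (hc : CutX c' n k m) : CutX c n k m :=
  ⟨hc.toCutE, fun p hp => (Nat.pow_le_pow_right (by omega) h).trans_lt (hc.mar p hp)⟩

theorem GoodX.good {c n P : ℕ} (h : GoodX c n P) : Good c n P := by
  obtain ⟨k, m, h1, h2, h3⟩ := h
  exact ⟨k, m, h1.toCutE, h2, h3⟩

theorem GoodX.mono {c c' n P : ℕ} (hc : c ≤ c') (hn : n ≠ 0) (h : GoodX c' n P) : GoodX c n P := by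
  obtain ⟨k, m, h1, h2, h3⟩ := h
  refine ⟨k, m, h1.mono hc, h2, le_trans ?_ h3⟩
  have hk : 0 < k := Nat.pos_of_ne_zero fun h0 => hn (by rw [h1.eq, h0, zero_mul])
  exact Nat.pow_le_pow_right (by norm_num) (Nat.pow_le_pow_right (by omega) hc)

/-- Large primes are good. -/
theorem goodX_of {c t n P : ℕ} (hn : n ≠ 0) (ht : 0 < t) (h : NiceC (t * (c + 1)) n) (hP : P.Prime) (hPn : P ∣ n)
    (hl : Nat.log 2 n ≤ Nat.log 2 P ^ t) : GoodX c n P := by
  obtain ⟨k, m, hc, hk⟩ := h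
  have hP0 : P ≠ 0 := hP.ne_zero
  have h1 : ((k + n.primeFactorsList.length) ^ (c + 1)) ^ t ≤ Nat.log 2 P ^ t := by
    rw [← pow_mul, mul_comm (c + 1) t]
    exact hk.trans hl
  have h2 : (k + n.primeFactorsList.length) ^ (c + 1) ≤ Nat.log 2 P := by
    by_contra h3
    push Not at h3
    exact absurd h1 (not_le.2 (Nat.pow_lt_pow_left h3 ht.ne'))
  have hω : 1 ≤ n.primeFactorsList.length :=
    List.length_pos_of_mem ((Nat.mem_primeFactorsList hn).2 ⟨hP, hPn⟩)
  have hk1 : 0 < k := Nat.pos_of_ne_zero fun h0 => hn (by rw [hc.eq, h0, zero_mul])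
  have h3 : (k + n.primeFactorsList.length) ^ c ≤ Nat.log 2 P := by
    refine le_trans (Nat.pow_le_pow_right (by omega) (Nat.le_succ c)) h2
  have h4 : 2 ^ Nat.log 2 P ≤ P := Nat.pow_log_le_self 2 hP0
  have hct : c ≤ t * (c + 1) := by nlinarith
  refine ⟨k, m, hc.mono hct, ?_, (Nat.pow_le_pow_right (by norm_num) h3).trans h4⟩
  have h5 : P ∣ k * m := hc.eq ▸ hPn
  rcases hP.dvd_mul.1 h5 with h6 | h6
  · exfalso
    have h7 := Nat.le_of_dvd hk1 h6
    have h8 : k + n.primeFactorsList.length ≤ (k + n.primeFactorsList.length) ^ (c + 1) :=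
      Nat.le_self_pow (by omega) _
    have h9 : Nat.log 2 P < P := Nat.log_lt_self 2 hP0
    omega
  · exact Nat.mem_primeFactors.2 ⟨hP, h6, hc.sq.ne_zero⟩

/-- Almost all integers: large primes are good. -/
theorem almost_goodX (hN : NiceCS) (c : ℕ) {t : ℕ} (ht : 0 < t) :
    AlmostAll fun n => ∀ P : ℕ, P.Prime → P ∣ n → Nat.log 2 n ≤ Nat.log 2 P ^ t → GoodX c n P := by
  have h1 : AlmostAll (NiceC (t * (c + 1))) := fun ε hε => hN _ ε hε
  exact h1.mono fun _ hn h _ hP hPn hl => goodX_of hn ht h hP hPn hl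

/-- The structure `GN` for a group of good order. -/
theorem reduceX {c : ℕ} {G : Type u} [Group G] [Finite G] {P : ℕ} (hn : GoodX c (Nat.card G) P)
    {y : G} (hy : orderOf y = P) (hact : ∀ g, g * y * g⁻¹ = y ∨ g * y * g⁻¹ = y⁻¹) :
    ∃ (H : Type) (_ : Group H) (_ : Finite H) (e : G ≃* H) (N C : Subgroup H) (eps : H →* ℤˣ) (k : ℕ),
      GN N C eps k P ∧ (∀ g : G, eps (e g) = 1 ↔ g * y = y * g) ∧ Marg N k c ∧
      2 ^ ((k + (Nat.card H).primeFactorsList.length) ^ c) ≤ P ∧ ∃ m, CutX c (Nat.card H) k m := by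
  obtain ⟨k, m, hD, hP, hPb⟩ := hn
  obtain ⟨H, hH, hf, ⟨e⟩⟩ : ∃ (H : Type) (_ : Group H) (_ : Finite H), Nonempty (G ≃* H) :=
    ⟨Shrink.{0} G, inferInstance, Finite.of_equiv G (equivShrink.{0} G),
      ⟨(Shrink.mulEquiv : Shrink.{0} G ≃* G).symm⟩⟩
  have hcard : Nat.card G = Nat.card H := Nat.card_congr e.toEquiv
  have hkm : Nat.card G = k * m := hD.eq
  have hkm' : Nat.card H = k * m := hcard ▸ hkm
  have hD' : SQ2.CutD (k * m) k m := hkm ▸ hD.toCutD
  have hact' : ∀ g : H, g * e y * g⁻¹ = e y ∨ g * e y * g⁻¹ = (e y)⁻¹ := by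
    intro g
    obtain ⟨g, rfl⟩ := e.surjective g
    rw [← map_mul, ← map_inv, ← map_mul, ← map_inv]
    rcases hact g with h | h
    · exact Or.inl (congrArg e h)
    · exact Or.inr (congrArg e h)
  have hye : orderOf (e y) = P := by rw [← hy]; exact orderOf_injective e.toMonoidHom e.injective y
  obtain ⟨eps, N, C, heps, -, hNC⟩ := gn_exists hkm' hD' (by rw [← hkm]; exact hD.marg) hP (y := e y) hye hact'
  have hk : 0 < k := by
    rw [← hNC.idx]
    exact Nat.pos_of_ne_zero N.index_ne_zero_of_finite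
  have hNm : Nat.card N = m := by
    have h4 := N.card_mul_index
    rw [hNC.idx, hkm', mul_comm] at h4
    exact Nat.eq_of_mul_eq_mul_left hk h4
  refine ⟨H, hH, hf, e, N, C, eps, k, hNC, fun g => ⟨fun h => ?_, fun h => ?_⟩, fun p hp => ?_,
    by rw [← hcard]; exact hPb, m, hcard ▸ hD⟩
  · have h1 := heps (e g)
    rw [h, Units.val_one, zpow_one, mul_inv_eq_iff_eq_mul, ← map_mul, ← map_mul] at h1
    exact e.injective h1
  · have h1 := heps (e g)
    have h2 : e g * e y * (e g)⁻¹ = e y := by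
      rw [← map_mul, h, map_mul, mul_inv_cancel_right]
    rw [h2] at h1
    by_contra hne
    have hm : eps (e g) = -1 := (Int.units_eq_one_or (eps (e g))).resolve_left hne
    rw [hm, Units.val_neg, Units.val_one, zpow_neg_one, eq_inv_iff_mul_eq_one, ← pow_two] at h1
    have h3 : P ∣ 2 := by rw [← hye]; exact orderOf_dvd_of_pow_eq_one h1
    have h4 := P_ne_two hNC.toGNE
    have h5 := Nat.le_of_dvd (by norm_num) h3
    omega
  · rw [← hcard]
    exact hD.mar p (hNm ▸ hp)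

end Pool.Agent.Lib.MP_688fd0_co.SQD
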